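import Pool.Agent.Lib.MP_c3d375_an.Neg.H54.Zn0

/-!
# MP_c3d375_an, negation: the zone (section 4 of Paper.md), operator form, end
-/

set_option autoImplicit false

open ContinuousLinearMap ComplexConjugate
open scoped InnerProduct

namespace Pool.Agent.MP_c3d375_an.Neg.H54

universe u

variable {E : Type u} [NormedAddCommGroup E] [InnerProductSpace ℂ E] [CompleteSpace E]
variable {M ρ s : ℝ} {Q D j : E →L[ℂ] E}

lemma s4_le {s : ℝ} (hs : 0 < s) (hs1 : s ≤ 1) : s ^ 4 ≤ s := by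
  calc s ^ 4 = s * s ^ 3 := by ring
    _ ≤ s * 1 := mul_le_mul_of_nonneg_left (pow_le_one₀ hs.le hs1) hs.le
    _ = s := mul_one s

lemma s2_le {s : ℝ} (hs : 0 < s) (hs1 : s ≤ 1) : s ^ 2 ≤ s := by
  calc s ^ 2 = s * s := by ring
    _ ≤ s * 1 := mul_le_mul_of_nonneg_left hs1 hs.le
    _ = s := mul_one s

/-- `|v| ≤ 1 + K s²` -/
lemma zn_v (c : Ctx E M (s ^ 4) ρ Q D j) {θ K1 : ℝ} (hθ : 0 < θ) (x v : E) (hx : ‖x‖ = 1)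
    (hxv : x = v + ((θ * ρ ^ 2 : ℝ) : ℂ) • Q (Q v)) (h1 : ρ ≤ K1 * s ^ 2) (h2 : ‖Q v‖ ≤ 2 * M) :
    ‖v‖ ≤ 1 + 2 * θ * M ^ 2 * K1 * s ^ 2 := by
  have hρ := c.hρ
  have hM0 := c.M0
  have a1 : v = x - ((θ * ρ ^ 2 : ℝ) : ℂ) • Q (Q v) := by rw [hxv]; abel
  have a2 : ‖((θ * ρ ^ 2 : ℝ) : ℂ) • Q (Q v)‖ ≤ 2 * θ * M ^ 2 * K1 * s ^ 2 := by
    rw [norm_smul, Complex.norm_real, Real.norm_of_nonneg (by positivity)]
    have h3 := c.nQx (Q v)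
    calc θ * ρ ^ 2 * ‖Q (Q v)‖ ≤ θ * ρ ^ 2 * (M / ρ * ‖Q v‖) :=
          mul_le_mul_of_nonneg_left h3 (by positivity)
      _ ≤ θ * ρ ^ 2 * (M / ρ * (2 * M)) := by gcongr
      _ = 2 * θ * M ^ 2 * ρ := by field_simp
      _ ≤ 2 * θ * M ^ 2 * (K1 * s ^ 2) := mul_le_mul_of_nonneg_left h1 (by positivity)
      _ = _ := by ring
  calc ‖v‖ = ‖x - ((θ * ρ ^ 2 : ℝ) : ℂ) • Q (Q v)‖ := by rw [← a1]
    _ ≤ ‖x‖ + ‖((θ * ρ ^ 2 : ℝ) : ℂ) • Q (Q v)‖ := norm_sub_le _ _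
    _ ≤ _ := by rw [hx]; linarith

/-- `|Qv| ≤ 1 + K s` -/
lemma zn_eta {M η nv s K5 K6 : ℝ} (hM : 1 ≤ M) (hK5 : 0 ≤ K5) (hK6 : 0 ≤ K6) (hη : 0 ≤ η)
    (hnv : 0 ≤ nv) (hs : 0 < s) (hs1 : s ≤ 1) (h2 : η ≤ 2 * M) (hv : nv ≤ 1 + K6 * s ^ 2)
    (h : η ^ 2 ≤ (1 + M * s ^ 4) * nv ^ 2 + K5 * s * η ^ 2) :
    η ≤ 1 + (M + (1 + M) * (2 * K6 + K6 ^ 2) + 4 * M ^ 2 * K5) * s := by
  have hs4 := s4_le hs hs1
  have hs2 := s2_le hs hs1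
  set A := M + (1 + M) * (2 * K6 + K6 ^ 2) + 4 * M ^ 2 * K5 with hA
  have hA0 : 0 ≤ A := by positivity
  have a1 : nv ≤ 1 + K6 * s := hv.trans (by nlinarith)
  have a2 : nv ^ 2 ≤ (1 + K6 * s) ^ 2 := pow_le_pow_left₀ hnv a1 2
  have a3 : (1 + K6 * s) ^ 2 ≤ 1 + (2 * K6 + K6 ^ 2) * s := by
    have : K6 ^ 2 * s ^ 2 ≤ K6 ^ 2 * s := mul_le_mul_of_nonneg_left hs2 (by positivity)
    nlinarith
  have a4 : (1 + M * s ^ 4) * nv ^ 2 ≤ (1 + M * s) * (1 + (2 * K6 + K6 ^ 2) * s) := by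
    apply mul_le_mul _ (a2.trans a3) (by positivity) (by positivity)
    nlinarith
  have a5 : (1 + M * s) * (1 + (2 * K6 + K6 ^ 2) * s) ≤
      1 + (M + (1 + M) * (2 * K6 + K6 ^ 2)) * s := by
    have : M * (2 * K6 + K6 ^ 2) * s ^ 2 ≤ M * (2 * K6 + K6 ^ 2) * s :=
      mul_le_mul_of_nonneg_left hs2 (by positivity)
    nlinarith
  have a6 : K5 * s * η ^ 2 ≤ 4 * M ^ 2 * K5 * s := by
    have : η ^ 2 ≤ (2 * M) ^ 2 := pow_le_pow_left₀ hη h2 2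
    calc K5 * s * η ^ 2 ≤ K5 * s * (2 * M) ^ 2 := mul_le_mul_of_nonneg_left this (by positivity)
      _ = _ := by ring
  have a7 : η ^ 2 ≤ 1 + A * s := by
    calc η ^ 2 ≤ _ := h
      _ ≤ (1 + (M + (1 + M) * (2 * K6 + K6 ^ 2)) * s) + 4 * M ^ 2 * K5 * s :=
          add_le_add (a4.trans a5) a6
      _ = _ := by rw [hA]; ring
  have a8 : η ^ 2 ≤ (1 + A * s) ^ 2 := by
    have : 0 ≤ A * s := by positivity
    nlinarith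
  exact le_of_sq_le_sq a8 (by positivity)

/-- the imaginary part -/
lemma zn_im (c : Ctx E M (s ^ 4) ρ Q D j) {θ K1 K2 Y : ℝ} (hθ : 0 < θ) (hY : 0 < Y) (x v : E)
    (hxv : x = v + ((θ * ρ ^ 2 : ℝ) : ℂ) • Q (Q v)) (h1 : ρ ≤ K1 * s ^ 2)
    (h2 : ‖Q v‖ ≤ 2 * M) (h3 : s ^ 2 ≤ K2 * ρ) (hK1 : 0 ≤ K1) (hK2 : 0 ≤ K2) (hs : 0 < s)
    (him : |(inner ℂ x ((ρ : ℂ) • Q v) : ℂ).im| ≤ Y * s ^ 4) :
    |(inner ℂ v (Q v) : ℂ).im| ≤ (Y + 4 * θ * M ^ 3 * K1 ^ 2) * K2 * s ^ 2 := by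
  have hρ := c.hρ
  have hM0 := c.M0
  set η := ‖Q v‖ with hη
  have hη0 : 0 ≤ η := norm_nonneg _
  have e1 : (inner ℂ x ((ρ : ℂ) • Q v) : ℂ) =
      ρ * (inner ℂ v (Q v) : ℂ) + ((θ * ρ ^ 3 : ℝ) : ℂ) * (inner ℂ (Q (Q v)) (Q v) : ℂ) := by
    rw [hxv, inner_smul_right, inner_add_left, inner_smul_left, Complex.conj_ofReal]
    push_cast
    ring
  have e2 : (inner ℂ x ((ρ : ℂ) • Q v) : ℂ).im =
      ρ * (inner ℂ v (Q v) : ℂ).im + θ * ρ ^ 3 * (inner ℂ (Q (Q v)) (Q v) : ℂ).im := by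
    rw [e1, Complex.add_im, Complex.im_ofReal_mul, Complex.im_ofReal_mul]
  have a1 : |(inner ℂ (Q (Q v)) (Q v) : ℂ).im| ≤ M / ρ * η * η := by
    calc |(inner ℂ (Q (Q v)) (Q v) : ℂ).im| ≤ ‖(inner ℂ (Q (Q v)) (Q v) : ℂ)‖ :=
          Complex.abs_im_le_norm _
      _ ≤ ‖Q (Q v)‖ * ‖Q v‖ := norm_inner_le_norm _ _
      _ ≤ _ := mul_le_mul_of_nonneg_right (c.nQx _) hη0
  have a2 : θ * ρ ^ 3 * |(inner ℂ (Q (Q v)) (Q v) : ℂ).im| ≤ 4 * θ * M ^ 3 * K1 ^ 2 * s ^ 4 := by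
    calc θ * ρ ^ 3 * |(inner ℂ (Q (Q v)) (Q v) : ℂ).im| ≤ θ * ρ ^ 3 * (M / ρ * η * η) :=
          mul_le_mul_of_nonneg_left a1 (by positivity)
      _ ≤ θ * ρ ^ 3 * (M / ρ * (2 * M) * (2 * M)) := by gcongr
      _ = 4 * θ * M ^ 3 * ρ ^ 2 := by field_simp; ring
      _ ≤ 4 * θ * M ^ 3 * (K1 * s ^ 2) ^ 2 :=
          mul_le_mul_of_nonneg_left (pow_le_pow_left₀ hρ.le h1 2) (by positivity)
      _ = _ := by ring
  have a3 : ρ * |(inner ℂ v (Q v) : ℂ).im| ≤ (Y + 4 * θ * M ^ 3 * K1 ^ 2) * s ^ 4 := by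
    have h4 : ρ * |(inner ℂ v (Q v) : ℂ).im| = |ρ * (inner ℂ v (Q v) : ℂ).im| := by
      rw [abs_mul, abs_of_pos hρ]
    have h5 : ρ * (inner ℂ v (Q v) : ℂ).im = (inner ℂ x ((ρ : ℂ) • Q v) : ℂ).im -
        θ * ρ ^ 3 * (inner ℂ (Q (Q v)) (Q v) : ℂ).im := by rw [e2]; ring
    rw [h4, h5]
    calc |(inner ℂ x ((ρ : ℂ) • Q v) : ℂ).im - θ * ρ ^ 3 * (inner ℂ (Q (Q v)) (Q v) : ℂ).im|
        ≤ |(inner ℂ x ((ρ : ℂ) • Q v) : ℂ).im| +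
          |θ * ρ ^ 3 * (inner ℂ (Q (Q v)) (Q v) : ℂ).im| := abs_sub _ _
      _ = |(inner ℂ x ((ρ : ℂ) • Q v) : ℂ).im| +
          θ * ρ ^ 3 * |(inner ℂ (Q (Q v)) (Q v) : ℂ).im| := by
          rw [abs_mul, abs_of_nonneg (show (0 : ℝ) ≤ θ * ρ ^ 3 by positivity)]
      _ ≤ Y * s ^ 4 + 4 * θ * M ^ 3 * K1 ^ 2 * s ^ 4 := add_le_add him a2
      _ = _ := by ring
  have hs2 : 0 < s ^ 2 := by positivity
  have a4 : s ^ 2 * |(inner ℂ v (Q v) : ℂ).im| ≤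
      s ^ 2 * ((Y + 4 * θ * M ^ 3 * K1 ^ 2) * K2 * s ^ 2) := by
    calc s ^ 2 * |(inner ℂ v (Q v) : ℂ).im| ≤ (K2 * ρ) * |(inner ℂ v (Q v) : ℂ).im| :=
          mul_le_mul_of_nonneg_right h3 (abs_nonneg _)
      _ = K2 * (ρ * |(inner ℂ v (Q v) : ℂ).im|) := by ring
      _ ≤ K2 * ((Y + 4 * θ * M ^ 3 * K1 ^ 2) * s ^ 4) := mul_le_mul_of_nonneg_left a3 hK2
      _ = _ := by ring
  exact le_of_mul_le_mul_left a4 hs2

/-- the two contact numbers -/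
lemma zn_k (c : Ctx E M (s ^ 4) ρ Q D j) {K5 : ℝ} (hK5 : 0 ≤ K5) (v : E) (hs : 0 < s)
    (hs1 : s ≤ 1) (h2 : ‖Q v‖ ≤ 2 * M) (h3 : ‖Q v + adjoint Q v‖ ≤ K5 * s * ‖Q v‖) :
    |rp (Q (Q (j v))) v| ≤ (4 * M ^ 3 * K5 + 4 * M ^ 5) * s ∧
    |rp (j (Q v)) (Q v)| ≤ (4 * M ^ 3 * K5 + 4 * M ^ 5) * s := by
  have hM := c.hM
  have hM0 := c.M0
  have hs4 := s4_le hs hs1
  set u := Q v with hu
  set η := ‖u‖ with hη
  have hη0 : 0 ≤ η := norm_nonneg _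
  set y := adjoint Q v with hy
  have K1 : Q (j v) = j u := c.Qj v
  have nKv : ‖j u‖ ≤ 2 * M ^ 2 := (c.njx u).trans (by nlinarith)
  have nKu : ‖Q (j u)‖ ≤ 2 * M ^ 2 := (c.nKx u).trans (by nlinarith)
  have J1 : Q (Q (j v)) = Q (j u) := by rw [K1]
  have s1 : rp (Q (Q (j v))) v + rp (j u) u = rp (j u) (u + y) := by
    rw [rp_add_right, J1, hy, rp_adj_right]; ring
  have s2 : rp (j u) (u + y) ≤ 4 * M ^ 3 * K5 * s := by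
    have h4 : ‖u + y‖ ≤ K5 * s * (2 * M) :=
      h3.trans (mul_le_mul_of_nonneg_left h2 (by positivity))
    calc rp (j u) (u + y) ≤ ‖j u‖ * ‖u + y‖ := rp_le _ _
      _ ≤ (2 * M ^ 2) * (K5 * s * (2 * M)) := mul_le_mul nKv h4 (norm_nonneg _) (by positivity)
      _ = _ := by ring
  have l1 : -(4 * M ^ 5 * s) ≤ rp (Q (Q (j v))) v := by
    have h4 : -(M * s ^ 4) * ‖Q (Q (j v))‖ ^ 2 ≤ rp (Q (Q (j v))) v := c.posJ v
    have h5 : ‖Q (Q (j v))‖ ^ 2 ≤ (2 * M ^ 2) ^ 2 := by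
      rw [J1]; exact pow_le_pow_left₀ (norm_nonneg _) nKu 2
    have h6 : M * s ^ 4 * ‖Q (Q (j v))‖ ^ 2 ≤ M * s * (2 * M ^ 2) ^ 2 := by
      apply mul_le_mul _ h5 (by positivity) (by positivity)
      exact mul_le_mul_of_nonneg_left hs4 hM0
    nlinarith
  have l2 : -(4 * M ^ 5 * s) ≤ rp (j u) u := by
    have h4 : -(M * s ^ 4) * ‖j u‖ ^ 2 ≤ rp (j u) u := c.posj u
    have h5 : ‖j u‖ ^ 2 ≤ (2 * M ^ 2) ^ 2 := pow_le_pow_left₀ (norm_nonneg _) nKv 2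
    have h6 : M * s ^ 4 * ‖j u‖ ^ 2 ≤ M * s * (2 * M ^ 2) ^ 2 := by
      apply mul_le_mul _ h5 (by positivity) (by positivity)
      exact mul_le_mul_of_nonneg_left hs4 hM0
    nlinarith
  have p1 : 0 ≤ 4 * M ^ 3 * K5 * s := by positivity
  constructor <;> rw [abs_le] <;> constructor <;> nlinarith

/-- the zone lemma in operator form -/
theorem zn_core (M θ δ Y Λ : ℝ) (hM : 1 ≤ M) (hθ : 0 < θ) (hδ : 0 < δ) (hY : 0 < Y)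
    (hΛ : 0 < Λ) : ∃ C : ℝ, 1 ≤ C ∧ M ≤ C ∧ ∃ s0 : ℝ, 0 < s0 ∧ s0 ≤ 1 ∧ M * s0 ≤ 1 ∧
    ∀ (E : Type u) [NormedAddCommGroup E] [InnerProductSpace ℂ E] [CompleteSpace E]
      (Q D j : E →L[ℂ] E) (s ρ : ℝ), 0 < s → s < s0 → Ctx E M (s ^ 4) ρ Q D j →
      ∀ x v : E, ‖x‖ = 1 → ‖v‖ ≤ M → x = v + ((θ * ρ ^ 2 : ℝ) : ℂ) • Q (Q v) →
      ρ * rp (Q v) v + θ * ρ ^ 3 * rp (Q (Q v)) (Q v) < -(δ * s ^ 6) →
      |(inner ℂ x ((ρ : ℂ) • Q v) : ℂ).im| ≤ Y * s ^ 4 → ρ ^ 2 * ‖Q v‖ ≤ Λ * s ^ 4 →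
      ZoneC E Q D j C s ρ v := by
  have hcc := cc_pos hM hθ hδ
  have hc1 := c1_pos hM hθ
  have hK1 : 0 < k1 M θ δ Λ := div_pos hΛ hcc
  have hK2 : 0 < k2 M θ δ := by unfold k2; positivity
  have hK4 : 0 < k4 M θ δ := by unfold k4; positivity
  have hK5 : 0 < k5 M θ δ := by unfold k5; positivity
  have hM0 : 0 < M := by linarith
  set K1 := k1 M θ δ Λ with hK1d
  set K2 := k2 M θ δ with hK2d
  set K5 := k5 M θ δ with hK5d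
  set K6 := 2 * θ * M ^ 2 * K1 with hK6d
  have hK6 : 0 < K6 := by positivity
  set K7 := M + (1 + M) * (2 * K6 + K6 ^ 2) + 4 * M ^ 2 * K5 with hK7d
  have hK7 : 0 < K7 := by positivity
  set K8 := (Y + 4 * θ * M ^ 3 * K1 ^ 2) * K2 with hK8d
  have hK8 : 0 < K8 := by positivity
  set K9 := 4 * M ^ 3 * K5 + 4 * M ^ 5 with hK9d
  have hK9 : 0 < K9 := by positivity
  have hK3 : 0 < K1 / cc M θ δ := div_pos hK1 hcc
  have hMc : 0 < M * c1 M θ := by positivity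
  have hMK : 0 < M * K5 := by positivity
  set C := 1 + K1 + K2 + K1 / cc M θ δ + K7 + K6 + 4 * (M * c1 M θ) + K8 + 3 * M + 2 * (M * K5) +
    K9 with hC
  refine ⟨C, by rw [hC]; linarith, by rw [hC]; linarith, min 1 (min (1 / (16 * M)) (1 / (2 * K5))),
    by positivity, min_le_left _ _, ?_, ?_⟩
  · calc M * min 1 (min (1 / (16 * M)) (1 / (2 * K5))) ≤ M * (1 / (16 * M)) :=
          mul_le_mul_of_nonneg_left ((min_le_right _ _).trans (min_le_left _ _)) hM0.le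
      _ = 1 / 16 := by field_simp
      _ ≤ 1 := by norm_num
  intro E _ _ _ Q D j s ρ hs hss c x v hx hv hxv hre him hL
  have hs1 : s ≤ 1 := (hss.le).trans (min_le_left _ _)
  have hsM : s ≤ 1 / (16 * M) := (hss.le).trans ((min_le_right _ _).trans (min_le_left _ _))
  have hsK : s ≤ 1 / (2 * K5) := (hss.le).trans ((min_le_right _ _).trans (min_le_right _ _))
  have hs4 := s4_le hs hs1
  have hs2 := s2_le hs hs1
  have hMe : M * s ^ 4 ≤ 1 / 16 := by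
    calc M * s ^ 4 ≤ M * (1 / (16 * M)) := mul_le_mul_of_nonneg_left (hs4.trans hsM) hM0.le
      _ = 1 / 16 := by field_simp
  have hk5s : K5 * s ≤ 1 / 2 := by
    calc K5 * s ≤ K5 * (1 / (2 * K5)) := mul_le_mul_of_nonneg_left hsK hK5.le
      _ = 1 / 2 := by field_simp
  obtain ⟨a1, a2, a3, a4⟩ := zn_a c hθ hδ v hv hs hre
  obtain ⟨b1, b2, b3, b4, b5, b6⟩ := zn_b c hθ hδ hΛ v hs hs1 a2 hL a4 hMe hk5s hv
  have b1 : ρ ≤ K1 * s ^ 2 := b1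
  have b7 := zn_v c hθ x v hx hxv b1 b5
  have b8 := zn_eta hM hK5.le hK6.le (norm_nonneg (Q v)) (norm_nonneg v) hs hs1 b5 b7 b4
  have b9 := zn_im c hθ hY x v hxv b1 b5 b6 hK1.le hK2.le hs him
  obtain ⟨b10, b11⟩ := zn_k c hK5.le v hs hs1 b5 b3
  have hη0 : 0 ≤ ‖Q v‖ := norm_nonneg _
  have hρ := c.hρ
  have hs40 : 0 < s ^ 4 := by positivity
  have hs20 : 0 < s ^ 2 := by positivity
  have t1 : |rp (Q v) v| ≤ 2 * (M * c1 M θ) * s ^ 4 := by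
    calc |rp (Q v) v| ≤ c1 M θ * s ^ 4 * ‖Q v‖ := a3
      _ ≤ c1 M θ * s ^ 4 * (2 * M) := mul_le_mul_of_nonneg_left b5 (by positivity)
      _ = _ := by ring
  have t2 : rp (Ctx.N Q D v) v ≤ 4 * (M * c1 M θ) * s := by
    calc rp (Ctx.N Q D v) v ≤ 2 * c1 M θ * s ^ 4 * ‖Q v‖ := a4
      _ ≤ 2 * c1 M θ * s * (2 * M) := by gcongr
      _ = _ := by ring
  have t3 : ‖Q v + adjoint Q v‖ ≤ 2 * (M * K5) * s := by
    calc ‖Q v + adjoint Q v‖ ≤ K5 * s * ‖Q v‖ := b3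
      _ ≤ K5 * s * (2 * M) := mul_le_mul_of_nonneg_left b5 (by positivity)
      _ = _ := by ring
  have t4 : ‖adjoint Q v‖ ≤ 3 * M := by
    have h1 : ‖adjoint Q v‖ ≤ ‖Q v + adjoint Q v‖ + ‖Q v‖ := by
      have : adjoint Q v = (Q v + adjoint Q v) - Q v := by abel
      calc ‖adjoint Q v‖ = ‖(Q v + adjoint Q v) - Q v‖ := by rw [← this]
        _ ≤ _ := norm_sub_le _ _
    have h2 : ‖Q v + adjoint Q v‖ ≤ 1 / 2 * ‖Q v‖ :=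
      b3.trans (mul_le_mul_of_nonneg_right hk5s hη0)
    linarith
  have t5 : |(inner ℂ v (Q v) : ℂ).re| ≤ 2 * (M * c1 M θ) * s ^ 4 := by
    have : (inner ℂ v (Q v) : ℂ).re = rp (Q v) v := by rw [rp_comm]; rfl
    rw [this]; exact t1
  have t6 : ‖(inner ℂ v (Q v) : ℂ)‖ ≤ (2 * (M * c1 M θ) + K8) * s ^ 2 := by
    have h1 := Complex.norm_le_abs_re_add_abs_im (inner ℂ v (Q v) : ℂ)
    have h2 : s ^ 4 ≤ s ^ 2 := by
      calc s ^ 4 = s ^ 2 * s ^ 2 := by ring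
        _ ≤ s ^ 2 * 1 := mul_le_mul_of_nonneg_left (pow_le_one₀ hs.le hs1) hs20.le
        _ = _ := mul_one _
    have h3 : 2 * (M * c1 M θ) * s ^ 4 ≤ 2 * (M * c1 M θ) * s ^ 2 :=
      mul_le_mul_of_nonneg_left h2 (by positivity)
    calc _ ≤ _ := h1
      _ ≤ 2 * (M * c1 M θ) * s ^ 2 + K8 * s ^ 2 := add_le_add (t5.trans h3) b9
      _ = _ := by ring
  refine ⟨?_, ?_, ?_, ?_, ?_, ?_, ?_, ?_, ?_, ?_, ?_, ?_, ?_⟩
  · refine b1.trans (mul_le_mul_of_nonneg_right ?_ hs20.le); rw [hC]; linarith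
  · refine b6.trans (mul_le_mul_of_nonneg_right ?_ hρ.le); rw [hC]; linarith
  · have h1 : 1 ≤ K1 / cc M θ δ * ‖Q v‖ := by
      rw [div_mul_eq_mul_div, le_div_iff₀ hcc]; linarith
    refine h1.trans (mul_le_mul_of_nonneg_right ?_ hη0); rw [hC]; linarith
  · refine b8.trans (add_le_add le_rfl (mul_le_mul_of_nonneg_right ?_ hs.le)); rw [hC]; linarith
  · refine b7.trans (add_le_add le_rfl (mul_le_mul_of_nonneg_right ?_ hs20.le)); rw [hC]; linarith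
  · refine t1.trans (mul_le_mul_of_nonneg_right ?_ hs40.le); rw [hC]; linarith
  · refine t6.trans (mul_le_mul_of_nonneg_right ?_ hs20.le); rw [hC]; linarith
  · rw [hC]; linarith
  · rw [hC]; linarith
  · refine t2.trans (mul_le_mul_of_nonneg_right ?_ hs.le); rw [hC]; linarith
  · refine t3.trans (mul_le_mul_of_nonneg_right ?_ hs.le); rw [hC]; linarith
  · refine b10.trans (mul_le_mul_of_nonneg_right ?_ hs.le); rw [hC]; linarith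
  · refine b11.trans (mul_le_mul_of_nonneg_right ?_ hs.le); rw [hC]; linarith

end Pool.Agent.MP_c3d375_an.Neg.H54
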