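import Pool.Agent.Lib.MP_c3d375_an.Neg.Iface
import Pool.Agent.Lib.MP_c3d375_an.Neg.H54.Zn1

/-!
# MP_c3d375_an, negation: module ZN (the zone, section 4 of Paper.md)
-/

set_option autoImplicit false

open ContinuousLinearMap ComplexConjugate Pool.Agent.MP_c3d375_an.Neg.H54

namespace C3N.H54

section

variable {H : Type} [NormedAddCommGroup H] [InnerProductSpace ℂ H] [CompleteSpace H]
  {𝓐 : Type} [CommRing 𝓐] [Algebra ℂ 𝓐]

/-- the certificate in operator form -/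
lemma ctx_of_cer {Φ : 𝓐 →ₐ[ℂ] (H →L[ℂ] H)} {q j Δ : 𝓐} {M e ρ : ℝ} (hM : 1 ≤ M) (he : 0 < e)
    (hρ : 0 < ρ) (hρM : ρ ≤ M) (h : Cer Φ q j Δ M e ρ) : Ctx H M e ρ (Φ q) (Φ Δ) (Φ j) where
  hM := hM
  he := he
  hρ := hρ
  hρM := hρM
  cQD := by rw [← map_mul, mul_comm, map_mul]
  cQj := by rw [← map_mul, mul_comm, map_mul]
  cDj := by rw [← map_mul, mul_comm, map_mul]
  jJ := by
    rw [← map_mul, ← map_mul, ← map_add, ← map_one Φ, ← h.hj]
    congr 1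
    ring
  nj := h.nj
  nK := by rw [← map_mul]; exact h.nK
  nJ := by rw [← map_mul, ← map_mul, ← sq]; exact h.nJ
  nQ := h.nq
  nD := h.nΔ
  pos := fun z => by
    have h1 := h.acc z
    have h2 : Φ (q * (1 + Δ)) z = Φ q z + Φ Δ (Φ q z) := by
      have : q * (1 + Δ) = q + Δ * q := by ring
      rw [this, map_add, map_mul]
      rfl
    rw [h2] at h1
    rw [rp_comm]
    exact h1
  posH := fun z => by
    have h1 := h.ber z
    have h2 : Φ (1 + q ^ 2) z = z + Φ q (Φ q z) := by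
      rw [map_add, map_pow, map_one, sq]
      rfl
    rw [h2] at h1
    rw [rp_comm, neg_mul]
    exact h1
  posj := fun z => by
    have h1 := h.pj z
    rw [rp_comm, neg_mul]
    exact h1
  posJ := fun z => by
    have h1 := h.pJ z
    have h2 : Φ q * Φ q * Φ j = Φ (q ^ 2 * j) := by rw [← map_mul, ← map_mul, ← sq]
    rw [h2, rp_comm, neg_mul]
    exact h1

end

theorem zn_st (hLP : LPStatement) : ZNStatement := by
  intro M θ δ Y hM hθ hδ hY
  obtain ⟨Λ, hΛ, hLP⟩ := hLP M θ (by linarith) hθ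
  obtain ⟨C, hC1, hCM, s0, hs0, hs01, hMs0, hcore⟩ := zn_core M θ δ Y Λ hM hθ hδ hY hΛ
  refine ⟨C, hC1, s0 ^ 4, by positivity, ?_⟩
  intro H _ _ _ 𝓐 _ _ Φ q j Δ e ρ he hes hρ hρM hcer x v hx hv hxv hre him
  set s := √√e with hs
  have hse : s ^ 2 = √e := Real.sq_sqrt (Real.sqrt_nonneg _)
  have hs4 : s ^ 4 = e := by
    calc s ^ 4 = (s ^ 2) ^ 2 := by ring
      _ = (√e) ^ 2 := by rw [hse]
      _ = e := Real.sq_sqrt he.le
  have hs_pos : 0 < s := Real.sqrt_pos.mpr (Real.sqrt_pos.mpr he)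
  have hss : s < s0 := by
    rw [← hs4] at hes
    exact lt_of_pow_lt_pow_left₀ 4 hs0.le hes
  have hs6 : e ^ (3 / 2 : ℝ) = s ^ 6 := by
    have h1 : e ^ (3 / 2 : ℝ) = (√e) ^ 3 := by
      rw [Real.sqrt_eq_rpow, ← Real.rpow_natCast, ← Real.rpow_mul he.le]
      norm_num
    rw [h1, ← hse]; ring
  have hctx : Ctx H M (s ^ 4) ρ (Φ q) (Φ Δ) (Φ j) := by
    rw [hs4]; exact ctx_of_cer hM he hρ hρM hcer
  -- the vector
  have q2 : Φ (q ^ 2) v = Φ q (Φ q v) := by rw [map_pow, sq]; rfl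
  have qρ : Φ ((ρ : ℂ) • q) v = (ρ : ℂ) • Φ q v := by rw [map_smul]; rfl
  rw [q2] at hxv
  rw [qρ] at hre him
  have e1 : (inner ℂ x ((ρ : ℂ) • Φ q v) : ℂ) = ρ * (inner ℂ v (Φ q v) : ℂ) +
      ((θ * ρ ^ 3 : ℝ) : ℂ) * (inner ℂ (Φ q (Φ q v)) (Φ q v) : ℂ) := by
    rw [hxv, inner_smul_right, inner_add_left, inner_smul_left, Complex.conj_ofReal]
    push_cast
    ring
  have e2 : (inner ℂ x ((ρ : ℂ) • Φ q v) : ℂ).re =
      ρ * rp (Φ q v) v + θ * ρ ^ 3 * rp (Φ q (Φ q v)) (Φ q v) := by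
    rw [e1, Complex.add_re, Complex.re_ofReal_mul, Complex.re_ofReal_mul, rp_comm (Φ q v) v]
    rfl
  rw [e2, hs6] at hre
  have hlow : (inner ℂ v (Φ q v) : ℂ).re +
      θ * ρ ^ 2 * (inner ℂ (Φ q v) (Φ q (Φ q v)) : ℂ).re ≤ 0 := by
    have h1 : (inner ℂ v (Φ q v) : ℂ).re = rp (Φ q v) v := by rw [rp_comm]; rfl
    have h2 : (inner ℂ (Φ q v) (Φ q (Φ q v)) : ℂ).re = rp (Φ q (Φ q v)) (Φ q v) := by
      rw [rp_comm]; rfl
    rw [h1, h2]
    have h3 : 0 < δ * s ^ 6 := by positivity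
    by_contra hcon
    push Not at hcon
    have h4 := mul_pos hρ hcon
    nlinarith
  have hL : ρ ^ 2 * ‖Φ q v‖ ≤ Λ * s ^ 4 := by
    rw [hs4]
    exact hLP H 𝓐 Φ q j Δ e ρ he hρ hρM hcer v hv hlow
  have hz := hcore H (Φ q) (Φ Δ) (Φ j) s ρ hs_pos hss hctx x v hx hv hxv hre
    (by rw [hs4]; exact him) hL
  have hMe : M * e ≤ C * s := by
    have h1 : s ^ 4 ≤ s := s4_le hs_pos (hss.le.trans hs01)
    calc M * e = M * s ^ 4 := by rw [hs4]
      _ ≤ C * s := mul_le_mul hCM h1 (by positivity) (by linarith)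
  have h0 : 0 ≤ C := by linarith
  refine ⟨?_, ?_, hz.z3, hz.z4, ?_, ?_, ?_, ?_⟩
  · rw [← hse]; exact hz.z1
  · rw [← hse]; exact hz.z2
  · rw [← hse]; exact hz.z5
  · have h1 : (inner ℂ v (Φ q v) : ℂ).re = rp (Φ q v) v := by rw [rp_comm]; rfl
    rw [h1, ← hs4]; exact hz.z6
  · rw [← hse]; exact hz.z7
  · refine ⟨hcer.hj, hcer.nj.trans hCM, hcer.nK.trans hCM, hcer.nJ.trans hCM,
      hcer.nΔ.trans hMe, hcer.acc, fun y => ?_, fun y => ?_, hv.trans hCM, hz.z8, hz.z9, ?_, hz.z11,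
      ?_, ?_⟩
    · refine le_trans ?_ (hcer.pj y)
      have := mul_le_mul_of_nonneg_right hMe (sq_nonneg ‖Φ j y‖)
      linarith
    · refine le_trans ?_ (hcer.pJ y)
      have := mul_le_mul_of_nonneg_right hMe (sq_nonneg ‖Φ (q ^ 2 * j) y‖)
      linarith
    · have h2 : Φ (q * (1 + Δ)) v = Φ q v + Φ Δ (Φ q v) := by
        have : q * (1 + Δ) = q + Δ * q := by ring
        rw [this, map_add, map_mul]
        rfl
      have h3 := hz.z10
      rw [rp_comm, Ctx.N_apply] at h3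
      rw [h2]
      exact h3
    · have h2 : Φ (q ^ 2 * j) v = Φ q (Φ q (Φ j v)) := by
        rw [map_mul, map_pow, sq]; rfl
      have h3 := hz.z12
      rw [rp_comm] at h3
      rw [h2]
      exact h3
    · have h3 := hz.z13
      rw [rp_comm] at h3
      exact h3

end C3N.H54
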