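import Mathlib

/-!
# MP_c3d375_an, negation: near-contact states, first estimates (sections 2-4 of Paper.md)
-/

set_option autoImplicit false

open ContinuousLinearMap ComplexConjugate
open scoped InnerProduct

namespace Pool.Agent.MP_c3d375_an.Neg.H54

universe u

variable {E : Type u} [NormedAddCommGroup E] [InnerProductSpace ℂ E]

/-- real part of the inner product -/
noncomputable def rp (x y : E) : ℝ := (inner ℂ x y : ℂ).re

lemma rp_comm (x y : E) : rp x y = rp y x := by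
  unfold rp
  exact inner_re_symm (𝕜 := ℂ) x y

lemma rp_add_left (x y z : E) : rp (x + y) z = rp x z + rp y z := by
  unfold rp; rw [inner_add_left, Complex.add_re]

lemma rp_add_right (x y z : E) : rp x (y + z) = rp x y + rp x z := by
  unfold rp; rw [inner_add_right, Complex.add_re]

lemma rp_sub_left (x y z : E) : rp (x - y) z = rp x z - rp y z := by
  unfold rp; rw [inner_sub_left, Complex.sub_re]

lemma rp_sub_right (x y z : E) : rp x (y - z) = rp x y - rp x z := by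
  unfold rp; rw [inner_sub_right, Complex.sub_re]

lemma rp_neg_left (x y : E) : rp (-x) y = - rp x y := by
  unfold rp; rw [inner_neg_left, Complex.neg_re]

lemma rp_neg_right (x y : E) : rp x (-y) = - rp x y := by
  unfold rp; rw [inner_neg_right, Complex.neg_re]

lemma rp_smul_left (s : ℝ) (x y : E) : rp ((s : ℂ) • x) y = s * rp x y := by
  unfold rp; rw [inner_smul_left, Complex.conj_ofReal, Complex.re_ofReal_mul]

lemma rp_smul_right (s : ℝ) (x y : E) : rp x ((s : ℂ) • y) = s * rp x y := by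
  unfold rp; rw [inner_smul_right, Complex.re_ofReal_mul]

lemma rp_self (x : E) : rp x x = ‖x‖ ^ 2 := by
  unfold rp
  rw [inner_self_eq_norm_sq_to_K]
  norm_cast

lemma abs_rp_le (x y : E) : |rp x y| ≤ ‖x‖ * ‖y‖ :=
  (Complex.abs_re_le_norm _).trans (norm_inner_le_norm x y)

lemma rp_le (x y : E) : rp x y ≤ ‖x‖ * ‖y‖ := (le_abs_self _).trans (abs_rp_le x y)

lemma neg_le_rp (x y : E) : -(‖x‖ * ‖y‖) ≤ rp x y := (abs_le.mp (abs_rp_le x y)).1

lemma rp_adj_left [CompleteSpace E] (A : E →L[ℂ] E) (x y : E) : rp (adjoint A x) y = rp x (A y) := by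
  unfold rp; rw [adjoint_inner_left]

lemma rp_adj_right [CompleteSpace E] (A : E →L[ℂ] E) (x y : E) : rp x (adjoint A y) = rp (A x) y := by
  unfold rp; rw [adjoint_inner_right]

/-- Cauchy-Schwarz for an operator with nonnegative real part -/
lemma cs (A : E →L[ℂ] E) (hA : ∀ z, 0 ≤ rp (A z) z) (x y : E) :
    (rp (A x) y + rp (A y) x) ^ 2 ≤ 4 * rp (A x) x * rp (A y) y := by
  have h : ∀ s : ℝ, 0 ≤ rp (A y) y * (s * s) + (rp (A x) y + rp (A y) x) * s + rp (A x) x := by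
    intro s
    have := hA (x + (s : ℂ) • y)
    rw [map_add, map_smul, rp_add_left, rp_add_right, rp_add_right, rp_smul_left, rp_smul_left,
      rp_smul_right, rp_smul_right] at this
    linarith
  have := discrim_le_zero h
  unfold discrim at this
  linarith

/-- `|B (A + A*) x|^2 <= 4 c Re<A x,x>` if `Re A >= 0`, `Re<A B* b, B* b> <= c |b|^2` -/
lemma norm_sq_le [CompleteSpace E] (A B : E →L[ℂ] E) (hA : ∀ z, 0 ≤ rp (A z) z) (c : ℝ)
    (hc : ∀ b, rp (A (adjoint B b)) (adjoint B b) ≤ c * ‖b‖ ^ 2) (x : E) :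
    ‖B (A x + adjoint A x)‖ ^ 2 ≤ 4 * c * rp (A x) x := by
  set b := B (A x + adjoint A x) with hb
  have h1 : ‖b‖ ^ 2 = rp (A x) (adjoint B b) + rp (A (adjoint B b)) x := by
    rw [← rp_self]
    conv_lhs => rw [hb]
    rw [← rp_adj_right, rp_add_left, rp_adj_left, rp_comm x]
  have h2 := cs A hA x (adjoint B b)
  rw [← h1] at h2
  have h3 := hc b
  have h4 := hA x
  rcases eq_or_lt_of_le (sq_nonneg ‖b‖) with h5 | h5
  · rw [← h5]
    have h6 : 0 ≤ rp (A x) x * rp (A (adjoint B b)) (adjoint B b) := mul_nonneg h4 (hA _)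
    rw [← h5] at h3
    have h7 := hA (adjoint B b)
    have h8 : rp (A (adjoint B b)) (adjoint B b) = 0 := le_antisymm (by linarith) h7
    by_contra hcon
    push Not at hcon
    -- then `c` is negative and `Re<Ax,x>` positive: replace `b` by another vector
    have h9 : c < 0 := by
      by_contra h10
      push Not at h10
      have := mul_nonneg h10 h4
      linarith
    by_cases hx : x = 0
    · rw [hx, map_zero] at hcon
      simp [rp] at hcon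
    · have h11 := hc x
      have h12 := hA (adjoint B x)
      have h13 : 0 < ‖x‖ := norm_pos_iff.mpr hx
      nlinarith [mul_pos (neg_pos.mpr h9) (pow_pos h13 2)]
  · have h6 : (‖b‖ ^ 2) ^ 2 ≤ (4 * c * rp (A x) x) * ‖b‖ ^ 2 := by
      calc (‖b‖ ^ 2) ^ 2 ≤ 4 * rp (A x) x * rp (A (adjoint B b)) (adjoint B b) := h2
        _ ≤ 4 * rp (A x) x * (c * ‖b‖ ^ 2) := by
            apply mul_le_mul_of_nonneg_left h3; linarith
        _ = _ := by ring
    rw [sq (‖b‖ ^ 2)] at h6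
    exact le_of_mul_le_mul_right h6 h5

/-- the certificate in operator form -/
structure Ctx (E : Type u) [NormedAddCommGroup E] [InnerProductSpace ℂ E] (M e ρ : ℝ)
    (Q D j : E →L[ℂ] E) : Prop where
  hM : 1 ≤ M
  he : 0 < e
  hρ : 0 < ρ
  hρM : ρ ≤ M
  cQD : Q * D = D * Q
  cQj : Q * j = j * Q
  cDj : D * j = j * D
  jJ : j + Q * Q * j = 1
  nj : ‖j‖ ≤ M
  nK : ‖Q * j‖ ≤ M
  nJ : ‖Q * Q * j‖ ≤ M
  nQ : ‖Q‖ ≤ M / ρ
  nD : ‖D‖ ≤ M * e
  pos : ∀ z, 0 ≤ rp (Q z + D (Q z)) z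
  posH : ∀ z, -(M * e) * ‖z‖ ^ 2 ≤ rp (z + Q (Q z)) z
  posj : ∀ z, -(M * e) * ‖j z‖ ^ 2 ≤ rp (j z) z
  posJ : ∀ z, -(M * e) * ‖(Q * Q * j) z‖ ^ 2 ≤ rp ((Q * Q * j) z) z

namespace Ctx

variable {M e ρ : ℝ} {Q D j : E →L[ℂ] E}

lemma M0 (c : Ctx E M e ρ Q D j) : 0 ≤ M := zero_le_one.trans c.hM

lemma Jx (c : Ctx E M e ρ Q D j) (x : E) : Q (Q (j x)) = x - j x := by
  have h : j x + Q (Q (j x)) = x := congrArg (fun A : E →L[ℂ] E => A x) c.jJ
  exact eq_sub_of_add_eq' h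

lemma Qj (c : Ctx E M e ρ Q D j) (x : E) : Q (j x) = j (Q x) :=
  congrArg (fun A : E →L[ℂ] E => A x) c.cQj

lemma QD (c : Ctx E M e ρ Q D j) (x : E) : Q (D x) = D (Q x) :=
  congrArg (fun A : E →L[ℂ] E => A x) c.cQD

lemma Dj (c : Ctx E M e ρ Q D j) (x : E) : D (j x) = j (D x) :=
  congrArg (fun A : E →L[ℂ] E => A x) c.cDj

lemma njx (c : Ctx E M e ρ Q D j) (x : E) : ‖j x‖ ≤ M * ‖x‖ := j.le_of_opNorm_le c.nj x

lemma nKx (c : Ctx E M e ρ Q D j) (x : E) : ‖Q (j x)‖ ≤ M * ‖x‖ :=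
  (Q * j).le_of_opNorm_le c.nK x

lemma nJx (c : Ctx E M e ρ Q D j) (x : E) : ‖Q (Q (j x))‖ ≤ M * ‖x‖ :=
  (Q * Q * j).le_of_opNorm_le c.nJ x

lemma nQx (c : Ctx E M e ρ Q D j) (x : E) : ‖Q x‖ ≤ M / ρ * ‖x‖ := Q.le_of_opNorm_le c.nQ x

lemma nDx (c : Ctx E M e ρ Q D j) (x : E) : ‖D x‖ ≤ M * e * ‖x‖ := D.le_of_opNorm_le c.nD x

lemma nDsx [CompleteSpace E] (c : Ctx E M e ρ Q D j) (x : E) :
    ‖adjoint D x‖ ≤ M * e * ‖x‖ := by
  apply le_of_opNorm_le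
  rw [LinearIsometryEquiv.norm_map]
  exact c.nD

/-- the positive operator `N` -/
noncomputable def N (Q D : E →L[ℂ] E) : E →L[ℂ] E := Q + D * Q

lemma N_apply (x : E) : N Q D x = Q x + D (Q x) := rfl

lemma Ns_apply [CompleteSpace E] (c : Ctx E M e ρ Q D j) (x : E) :
    adjoint (N Q D) x = adjoint Q x + adjoint D (adjoint Q x) := by
  have : N Q D = Q + Q * D := by rw [N, c.cQD]
  rw [this, map_add, ContinuousLinearMap.mul_def, adjoint_comp]
  rfl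

lemma N_pos (c : Ctx E M e ρ Q D j) (z : E) : 0 ≤ rp (N Q D z) z := c.pos z

lemma nN (c : Ctx E M e ρ Q D j) (hMe : M * e ≤ 1) : ‖N Q D‖ ≤ 2 * M / ρ := by
  have h1 : ‖D * Q‖ ≤ M / ρ := by
    calc ‖D * Q‖ ≤ ‖D‖ * ‖Q‖ := norm_mul_le _ _
      _ ≤ 1 * (M / ρ) := mul_le_mul (c.nD.trans hMe) c.nQ (norm_nonneg _) zero_le_one
      _ = M / ρ := one_mul _
  calc ‖N Q D‖ ≤ ‖Q‖ + ‖D * Q‖ := norm_add_le _ _
    _ ≤ M / ρ + M / ρ := add_le_add c.nQ h1
    _ = 2 * M / ρ := by ring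

/-- `rho |(N + N*) z|^2 <= 8 M Re<Nz,z>` -/
lemma nNN [CompleteSpace E] (c : Ctx E M e ρ Q D j) (hMe : M * e ≤ 1) (z : E) :
    ρ * ‖N Q D z + adjoint (N Q D) z‖ ^ 2 ≤ 8 * M * rp (N Q D z) z := by
  have h := norm_sq_le (N Q D) 1 c.N_pos (2 * M / ρ) (fun b => by
    have h1 : adjoint (1 : E →L[ℂ] E) b = b := by
      rw [show (1 : E →L[ℂ] E) = ContinuousLinearMap.id ℂ E from rfl, adjoint_id]; rfl
    rw [h1]
    calc rp (N Q D b) b ≤ ‖N Q D b‖ * ‖b‖ := rp_le _ _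
      _ ≤ (2 * M / ρ * ‖b‖) * ‖b‖ := by
          apply mul_le_mul_of_nonneg_right _ (norm_nonneg _)
          exact (N Q D).le_of_opNorm_le (c.nN hMe) b
      _ = _ := by ring) z
  have h : ‖N Q D z + adjoint (N Q D) z‖ ^ 2 ≤ 4 * (2 * M / ρ) * rp (N Q D z) z := h
  have hρ := c.hρ
  calc ρ * ‖N Q D z + adjoint (N Q D) z‖ ^ 2 ≤ ρ * (4 * (2 * M / ρ) * rp (N Q D z) z) :=
        mul_le_mul_of_nonneg_left h hρ.le
    _ = 8 * M * rp (N Q D z) z := by field_simp; ring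

/-- first estimates -/
lemma st0 (c : Ctx E M e ρ Q D j) (v : E) (hv : ‖v‖ ≤ M) :
    ‖Q v‖ * ρ ≤ M ^ 2 ∧ -(M ^ 2 * e * ‖Q v‖) ≤ rp (Q v) v ∧
    |rp (N Q D v) v - rp (Q v) v| ≤ M ^ 2 * e * ‖Q v‖ ∧
    -(M ^ 2 * e * ‖Q v‖ ^ 2) ≤ ρ * rp (Q (Q v)) (Q v) := by
  have he := c.he
  have hρ := c.hρ
  have hM0 := c.M0
  set u := Q v with hu
  set η := ‖u‖ with hη
  have hη0 : 0 ≤ η := norm_nonneg _
  have h1 : η * ρ ≤ M ^ 2 := by
    have := c.nQx v
    have h2 : η ≤ M / ρ * M := this.trans (mul_le_mul_of_nonneg_left hv (by positivity))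
    calc η * ρ ≤ M / ρ * M * ρ := mul_le_mul_of_nonneg_right h2 hρ.le
      _ = M ^ 2 := by field_simp
  -- the two forms
  have e1 : rp (N Q D v) v = rp u v + rp (D u) v := by rw [N_apply, rp_add_left]
  have e2 : rp (N Q D u) u = rp (Q u) u + rp (D (Q u)) u := by rw [N_apply, rp_add_left]
  have p1 := c.N_pos v
  have p2 := c.N_pos u
  have b1 : |rp (D u) v| ≤ M ^ 2 * e * η := by
    calc |rp (D u) v| ≤ ‖D u‖ * ‖v‖ := abs_rp_le _ _
      _ ≤ (M * e * η) * M := mul_le_mul (c.nDx u) hv (norm_nonneg _) (by positivity)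
      _ = _ := by ring
  have b2 : ρ * |rp (D (Q u)) u| ≤ M ^ 2 * e * η ^ 2 := by
    have h3 : ‖D (Q u)‖ ≤ M * e * (M / ρ * η) :=
      (c.nDx _).trans (mul_le_mul_of_nonneg_left (c.nQx u) (by positivity))
    calc ρ * |rp (D (Q u)) u| ≤ ρ * (‖D (Q u)‖ * ‖u‖) :=
          mul_le_mul_of_nonneg_left (abs_rp_le _ _) hρ.le
      _ ≤ ρ * ((M * e * (M / ρ * η)) * η) := by gcongr
      _ = _ := by field_simp
  have b1' := abs_le.mp b1
  have t1 : -(M ^ 2 * e * η) ≤ rp u v := by linarith [b1'.2]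
  have P1 : -(M ^ 2 * e * η ^ 2) ≤ ρ * rp (Q u) u := by
    have h4 : ρ * rp (D (Q u)) u ≤ M ^ 2 * e * η ^ 2 :=
      (mul_le_mul_of_nonneg_left (le_abs_self _) hρ.le).trans b2
    have h5 : 0 ≤ ρ * rp (Q u) u + ρ * rp (D (Q u)) u := by
      rw [← mul_add, ← e2]; exact mul_nonneg hρ.le p2
    linarith
  refine ⟨h1, t1, ?_, P1⟩
  rw [e1]
  simpa using b1

/-- bound for `u + y` -/
lemma st_w [CompleteSpace E] (c : Ctx E M e ρ Q D j) (hMe : M * e ≤ 1 / 16) (v : E) :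
    ‖Q v + adjoint Q v‖ ≤ 2 * ‖N Q D v + adjoint (N Q D) v‖ + 4 * (M * e) * ‖Q v‖ := by
  have h1 : Q v + adjoint Q v =
      (N Q D v + adjoint (N Q D) v) - D (Q v) - adjoint D (adjoint Q v) := by
    rw [N_apply, c.Ns_apply]; abel
  have h2 : ‖adjoint Q v‖ ≤ ‖Q v + adjoint Q v‖ + ‖Q v‖ := by
    have : adjoint Q v = (Q v + adjoint Q v) - Q v := by abel
    calc ‖adjoint Q v‖ = ‖(Q v + adjoint Q v) - Q v‖ := by rw [← this]
      _ ≤ _ := norm_sub_le _ _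
  have h3 : ‖Q v + adjoint Q v‖ ≤ ‖N Q D v + adjoint (N Q D) v‖ + ‖D (Q v)‖ +
      ‖adjoint D (adjoint Q v)‖ := by
    conv_lhs => rw [h1]
    exact (norm_sub_le _ _).trans (add_le_add (norm_sub_le _ _) le_rfl)
  have h4 := c.nDx (Q v)
  have h5 := c.nDsx (adjoint Q v)
  have h6 : 0 ≤ M * e := mul_nonneg c.M0 c.he.le
  have h7 : M * e * ‖adjoint Q v‖ ≤ M * e * (‖Q v + adjoint Q v‖ + ‖Q v‖) :=
    mul_le_mul_of_nonneg_left h2 h6
  have h8 : M * e * ‖Q v + adjoint Q v‖ ≤ 1 / 16 * ‖Q v + adjoint Q v‖ :=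
    mul_le_mul_of_nonneg_right hMe (norm_nonneg _)
  have h9 : 0 ≤ M * e * ‖Q v‖ := mul_nonneg h6 (norm_nonneg _)
  nlinarith [norm_nonneg (N Q D v + adjoint (N Q D) v)]

end Ctx

end Pool.Agent.MP_c3d375_an.Neg.H54
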