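import Pool.Agent.Lib.MP_c3d375_an.Neg.H54.Base

/-!
# MP_c3d375_an, negation: the zone (section 4 of Paper.md), operator form
-/

set_option autoImplicit false

open ContinuousLinearMap ComplexConjugate
open scoped InnerProduct

namespace Pool.Agent.MP_c3d375_an.Neg.H54

universe u

/-- the conclusions of the zone lemma -/
structure ZoneC (E : Type u) [NormedAddCommGroup E] [InnerProductSpace ℂ E] [CompleteSpace E]
    (Q D j : E →L[ℂ] E) (C s ρ : ℝ) (v : E) : Prop where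
  z1 : ρ ≤ C * s ^ 2
  z2 : s ^ 2 ≤ C * ρ
  z3 : 1 ≤ C * ‖Q v‖
  z4 : ‖Q v‖ ≤ 1 + C * s
  z5 : ‖v‖ ≤ 1 + C * s ^ 2
  z6 : |rp (Q v) v| ≤ C * s ^ 4
  z7 : ‖(inner ℂ v (Q v) : ℂ)‖ ≤ C * s ^ 2
  z8 : ‖Q v‖ ≤ C
  z9 : ‖adjoint Q v‖ ≤ C
  z10 : rp (Ctx.N Q D v) v ≤ C * s
  z11 : ‖Q v + adjoint Q v‖ ≤ C * s
  z12 : |rp (Q (Q (j v))) v| ≤ C * s
  z13 : |rp (j (Q v)) (Q v)| ≤ C * s

/-- the constants -/
noncomputable def c1 (M θ : ℝ) : ℝ := M ^ 2 + θ * M ^ 4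
noncomputable def cc (M θ δ : ℝ) : ℝ := δ / c1 M θ
noncomputable def k1 (M θ δ Λ : ℝ) : ℝ := Λ / cc M θ δ
noncomputable def k4 (M θ δ : ℝ) : ℝ := 16 * M * c1 M θ / cc M θ δ + 1
noncomputable def k5 (M θ δ : ℝ) : ℝ := 2 * k4 M θ δ + 4 * M
noncomputable def k2 (M θ δ : ℝ) : ℝ := 2 * M / cc M θ δ
noncomputable def k6 (M θ δ Λ : ℝ) : ℝ := 2 * θ * M ^ 2 * k1 M θ δ Λ

variable {E : Type u} [NormedAddCommGroup E] [InnerProductSpace ℂ E] [CompleteSpace E]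
variable {M ρ s : ℝ} {Q D j : E →L[ℂ] E}

lemma c1_pos {M θ : ℝ} (hM : 1 ≤ M) (hθ : 0 < θ) : 0 < c1 M θ := by unfold c1; positivity

lemma cc_pos {M θ δ : ℝ} (hM : 1 ≤ M) (hθ : 0 < θ) (hδ : 0 < δ) : 0 < cc M θ δ :=
  div_pos hδ (c1_pos hM hθ)

/-- lower bound of `ρ η`, upper bound of `t` -/
lemma zn_a (c : Ctx E M (s ^ 4) ρ Q D j) {θ δ : ℝ} (hθ : 0 < θ) (hδ : 0 < δ) (v : E)
    (hv : ‖v‖ ≤ M) (hs : 0 < s)
    (hre : ρ * rp (Q v) v + θ * ρ ^ 3 * rp (Q (Q v)) (Q v) < -(δ * s ^ 6)) :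
    ‖Q v‖ * ρ ≤ M ^ 2 ∧ cc M θ δ * s ^ 2 < ρ * ‖Q v‖ ∧
    |rp (Q v) v| ≤ c1 M θ * s ^ 4 * ‖Q v‖ ∧ rp (Ctx.N Q D v) v ≤ 2 * c1 M θ * s ^ 4 * ‖Q v‖ := by
  obtain ⟨h1, h2, h3, h4⟩ := c.st0 v hv
  have hM := c.hM
  have hρ := c.hρ
  have hM0 := c.M0
  set η := ‖Q v‖ with hη
  have hη0 : 0 ≤ η := norm_nonneg _
  set t := rp (Q v) v with ht
  set P := rp (Q (Q v)) (Q v) with hP
  have hs4 : 0 < s ^ 4 := by positivity
  have hs6 : 0 < δ * s ^ 6 := by positivity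
  -- upper bound of `t`
  have a1 : ρ * (t + θ * ρ ^ 2 * P) < 0 := by nlinarith
  have a2 : t + θ * ρ ^ 2 * P < 0 := by
    by_contra hcon
    push Not at hcon
    exact absurd a1 (not_lt.mpr (mul_nonneg hρ.le hcon))
  have a3 : θ * ρ * -(ρ * P) ≤ θ * ρ * (M ^ 2 * s ^ 4 * η ^ 2) :=
    mul_le_mul_of_nonneg_left (by linarith) (by positivity)
  have a4 : θ * ρ * (M ^ 2 * s ^ 4 * η ^ 2) ≤ θ * M ^ 4 * s ^ 4 * η := by
    calc θ * ρ * (M ^ 2 * s ^ 4 * η ^ 2) = θ * M ^ 2 * s ^ 4 * η * (η * ρ) := by ring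
      _ ≤ θ * M ^ 2 * s ^ 4 * η * M ^ 2 := mul_le_mul_of_nonneg_left h1 (by positivity)
      _ = _ := by ring
  have a5 : t ≤ θ * M ^ 4 * s ^ 4 * η := by nlinarith
  have a6 : 0 ≤ M ^ 2 * s ^ 4 * η := by positivity
  have a6' : 0 ≤ θ * M ^ 4 * s ^ 4 * η := by positivity
  -- lower bound of `ρ η`
  have b1 : -(M ^ 2 * s ^ 4 * η) * ρ ≤ ρ * t := by nlinarith
  have b2 : θ * ρ ^ 2 * -(M ^ 2 * s ^ 4 * η ^ 2) ≤ θ * ρ ^ 2 * (ρ * P) :=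
    mul_le_mul_of_nonneg_left h4 (by positivity)
  have b3 : θ * ρ ^ 2 * (M ^ 2 * s ^ 4 * η ^ 2) ≤ θ * M ^ 4 * s ^ 4 * (ρ * η) := by
    calc θ * ρ ^ 2 * (M ^ 2 * s ^ 4 * η ^ 2) = θ * M ^ 2 * s ^ 4 * (ρ * η) * (η * ρ) := by ring
      _ ≤ θ * M ^ 2 * s ^ 4 * (ρ * η) * M ^ 2 := mul_le_mul_of_nonneg_left h1 (by positivity)
      _ = _ := by ring
  have b4 : δ * s ^ 6 < c1 M θ * (s ^ 4 * (ρ * η)) := by
    unfold c1
    nlinarith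
  have b5 : δ * s ^ 2 < c1 M θ * (ρ * η) := by
    have : s ^ 4 * (δ * s ^ 2) < s ^ 4 * (c1 M θ * (ρ * η)) := by
      calc s ^ 4 * (δ * s ^ 2) = δ * s ^ 6 := by ring
        _ < _ := b4
        _ = _ := by ring
    exact lt_of_mul_lt_mul_left this hs4.le
  refine ⟨h1, ?_, ?_, ?_⟩
  · unfold cc
    rw [div_mul_eq_mul_div, div_lt_iff₀ (c1_pos hM hθ)]
    linarith
  · unfold c1
    rw [abs_le]
    constructor <;> nlinarith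
  · have := (abs_le.mp h3).2
    unfold c1
    nlinarith

/-- the main sizes -/
lemma zn_b (c : Ctx E M (s ^ 4) ρ Q D j) {θ δ Λ : ℝ} (hθ : 0 < θ) (hδ : 0 < δ) (hΛ : 0 < Λ)
    (v : E) (hs : 0 < s) (hs1 : s ≤ 1)
    (hlow : cc M θ δ * s ^ 2 < ρ * ‖Q v‖) (hL : ρ ^ 2 * ‖Q v‖ ≤ Λ * s ^ 4)
    (hmv : rp (Ctx.N Q D v) v ≤ 2 * c1 M θ * s ^ 4 * ‖Q v‖)
    (hMe : M * s ^ 4 ≤ 1 / 16) (hk5 : k5 M θ δ * s ≤ 1 / 2) (hv : ‖v‖ ≤ M) :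
    ρ ≤ k1 M θ δ Λ * s ^ 2 ∧ cc M θ δ ≤ k1 M θ δ Λ * ‖Q v‖ ∧
    ‖Q v + adjoint Q v‖ ≤ k5 M θ δ * s * ‖Q v‖ ∧
    ‖Q v‖ ^ 2 ≤ (1 + M * s ^ 4) * ‖v‖ ^ 2 + k5 M θ δ * s * ‖Q v‖ ^ 2 ∧ ‖Q v‖ ≤ 2 * M ∧
    s ^ 2 ≤ k2 M θ δ * ρ := by
  have hM := c.hM
  have hρ := c.hρ
  have hM0 := c.M0
  have hcc := cc_pos hM hθ hδ
  have hc1 := c1_pos hM hθ
  set η := ‖Q v‖ with hη
  have hη0 : 0 ≤ η := norm_nonneg _
  have hs2 : 0 < s ^ 2 := by positivity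
  -- `ρ`
  have a1 : cc M θ δ * ρ ≤ Λ * s ^ 2 := by
    have : s ^ 2 * (cc M θ δ * ρ) ≤ s ^ 2 * (Λ * s ^ 2) := by
      calc s ^ 2 * (cc M θ δ * ρ) = (cc M θ δ * s ^ 2) * ρ := by ring
        _ ≤ (ρ * η) * ρ := mul_le_mul_of_nonneg_right hlow.le hρ.le
        _ = ρ ^ 2 * η := by ring
        _ ≤ Λ * s ^ 4 := hL
        _ = _ := by ring
    exact le_of_mul_le_mul_left this hs2
  have z1 : ρ ≤ k1 M θ δ Λ * s ^ 2 := by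
    unfold k1
    rw [div_mul_eq_mul_div, le_div_iff₀ hcc]
    linarith
  have hk1 : 0 < k1 M θ δ Λ := div_pos hΛ hcc
  have z3 : cc M θ δ ≤ k1 M θ δ Λ * η := by
    have : s ^ 2 * cc M θ δ ≤ s ^ 2 * (k1 M θ δ Λ * η) := by
      calc s ^ 2 * cc M θ δ = cc M θ δ * s ^ 2 := by ring
        _ ≤ ρ * η := hlow.le
        _ ≤ (k1 M θ δ Λ * s ^ 2) * η := mul_le_mul_of_nonneg_right z1 hη0
        _ = _ := by ring
    exact le_of_mul_le_mul_left this hs2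
  -- `w1`
  have hMe1 : M * s ^ 4 ≤ 1 := by linarith
  have b1 := c.nNN hMe1 v
  set n := ‖Ctx.N Q D v + adjoint (Ctx.N Q D) v‖ with hn
  have hn0 : 0 ≤ n := norm_nonneg _
  have b2 : ρ * n ^ 2 ≤ 16 * M * c1 M θ * s ^ 4 * η := by
    calc ρ * n ^ 2 ≤ 8 * M * rp (Ctx.N Q D v) v := b1
      _ ≤ 8 * M * (2 * c1 M θ * s ^ 4 * η) := mul_le_mul_of_nonneg_left hmv (by positivity)
      _ = _ := by ring
  have b3 : cc M θ δ * n ^ 2 ≤ 16 * M * c1 M θ * (s * η) ^ 2 := by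
    have : s ^ 2 * (cc M θ δ * n ^ 2) ≤ s ^ 2 * (16 * M * c1 M θ * (s * η) ^ 2) := by
      calc s ^ 2 * (cc M θ δ * n ^ 2) = (cc M θ δ * s ^ 2) * n ^ 2 := by ring
        _ ≤ (ρ * η) * n ^ 2 := mul_le_mul_of_nonneg_right hlow.le (by positivity)
        _ = η * (ρ * n ^ 2) := by ring
        _ ≤ η * (16 * M * c1 M θ * s ^ 4 * η) := mul_le_mul_of_nonneg_left b2 hη0
        _ = _ := by ring
    exact le_of_mul_le_mul_left this hs2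
  have hk4 : 1 ≤ k4 M θ δ := by
    unfold k4
    have : 0 ≤ 16 * M * c1 M θ / cc M θ δ := by positivity
    linarith
  have b4 : n ≤ k4 M θ δ * (s * η) := by
    have h1 : n ^ 2 ≤ (k4 M θ δ * (s * η)) ^ 2 := by
      have h2 : n ^ 2 ≤ 16 * M * c1 M θ / cc M θ δ * (s * η) ^ 2 := by
        rw [div_mul_eq_mul_div, le_div_iff₀ hcc]
        linarith
      have h3 : 16 * M * c1 M θ / cc M θ δ ≤ (k4 M θ δ) ^ 2 := by
        have h4 : 16 * M * c1 M θ / cc M θ δ ≤ k4 M θ δ := by unfold k4; linarith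
        nlinarith
      calc n ^ 2 ≤ _ := h2
        _ ≤ (k4 M θ δ) ^ 2 * (s * η) ^ 2 := mul_le_mul_of_nonneg_right h3 (by positivity)
        _ = _ := by ring
    exact le_of_sq_le_sq h1 (by positivity)
  have b5 : ‖Q v + adjoint Q v‖ ≤ k5 M θ δ * s * η := by
    have h1 := c.st_w hMe v
    have h2 : s ^ 4 ≤ s := by
      calc s ^ 4 = s * s ^ 3 := by ring
        _ ≤ s * 1 := mul_le_mul_of_nonneg_left (pow_le_one₀ hs.le hs1) hs.le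
        _ = s := mul_one s
    have h3 : 4 * (M * s ^ 4) * η ≤ 4 * M * s * η := by
      have : 4 * (M * s ^ 4) ≤ 4 * M * s := by nlinarith
      exact mul_le_mul_of_nonneg_right this hη0
    unfold k5
    calc ‖Q v + adjoint Q v‖ ≤ 2 * n + 4 * (M * s ^ 4) * η := h1
      _ ≤ 2 * (k4 M θ δ * (s * η)) + 4 * M * s * η := add_le_add (by linarith) h3
      _ = _ := by ring
  -- `η`
  have d1 : η ^ 2 ≤ (1 + M * s ^ 4) * ‖v‖ ^ 2 + k5 M θ δ * s * η ^ 2 := by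
    have h1 := c.posH v
    have h2 : rp (v + Q (Q v)) v = ‖v‖ ^ 2 + rp (Q v) (Q v + adjoint Q v) - η ^ 2 := by
      rw [rp_add_left, rp_self, rp_add_right, rp_adj_right, rp_self]
      ring
    have h3 : rp (Q v) (Q v + adjoint Q v) ≤ η * (k5 M θ δ * s * η) :=
      (rp_le _ _).trans (mul_le_mul_of_nonneg_left b5 hη0)
    rw [h2] at h1
    nlinarith
  have d2 : η ≤ 2 * M := by
    have h1 : ‖v‖ ^ 2 ≤ M ^ 2 := pow_le_pow_left₀ (norm_nonneg _) hv 2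
    have h2 : (1 + M * s ^ 4) * ‖v‖ ^ 2 ≤ (1 + 1 / 16) * M ^ 2 :=
      mul_le_mul (by linarith) h1 (by positivity) (by norm_num)
    have h3 : k5 M θ δ * s * η ^ 2 ≤ 1 / 2 * η ^ 2 :=
      mul_le_mul_of_nonneg_right hk5 (by positivity)
    have h4 : η ^ 2 ≤ (2 * M) ^ 2 := by nlinarith
    exact le_of_sq_le_sq h4 (by positivity)
  refine ⟨z1, z3, b5, d1, d2, ?_⟩
  unfold k2
  rw [div_mul_eq_mul_div, le_div_iff₀ hcc]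
  have : ρ * η ≤ ρ * (2 * M) := mul_le_mul_of_nonneg_left d2 hρ.le
  linarith

end Pool.Agent.MP_c3d375_an.Neg.H54
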